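import Mathlib

/-! Crossing lemma for continuous real functions and nested intervals realising a prescribed
sequence of crossings. -/

namespace Pool.Agent.Q264.HS

open Set

/-- The endpoints of `[a,b]` are sent by `f` to `l` and `r` in some order. -/
def Ends (f : ℝ → ℝ) (a b l r : ℝ) : Prop := (f a = l ∧ f b = r) ∨ (f a = r ∧ f b = l)

/-- One endpoint is sent to the left of `l`, the other to the right of `r`. -/
def Spans (f : ℝ → ℝ) (a b l r : ℝ) : Prop := (f a ≤ l ∧ r ≤ f b) ∨ (r ≤ f a ∧ f b ≤ l)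

theorem cross_up {f : ℝ → ℝ} (hf : Continuous f) {a b l r : ℝ} (hab : a ≤ b) (hlr : l < r)
    (ha : f a ≤ l) (hb : r ≤ f b) :
    ∃ a' b', a ≤ a' ∧ a' ≤ b' ∧ b' ≤ b ∧ (∀ t ∈ Icc a' b', f t ∈ Icc l r) ∧
      f a' = l ∧ f b' = r := by
  -- first time at level r
  have hS : IsCompact (Icc a b ∩ f ⁻¹' Ici r) :=
    isCompact_Icc.inter_right (isClosed_Ici.preimage hf)
  have hSne : (Icc a b ∩ f ⁻¹' Ici r).Nonempty := ⟨b, ⟨hab, le_rfl⟩, hb⟩
  obtain ⟨b', hb'⟩ := hS.exists_isLeast hSne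
  have hb'1 : b' ∈ Icc a b := hb'.1.1
  have hb'2 : r ≤ f b' := hb'.1.2
  have hbr : f b' = r := by
    refine le_antisymm ?_ hb'2
    by_contra hcon
    push Not at hcon
    have hiv := intermediate_value_Icc hb'1.1 hf.continuousOn
    obtain ⟨t, ht, htr⟩ := hiv ⟨(ha.trans hlr.le), hcon.le⟩
    have h1 : b' ≤ t := hb'.2 ⟨⟨ht.1, ht.2.trans hb'1.2⟩, by simp only [mem_preimage, mem_Ici]; linarith⟩
    have h2 : t = b' := le_antisymm ht.2 h1
    rw [h2] at htr; linarith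
  have hS2 : IsCompact (Icc a b' ∩ f ⁻¹' Iic l) :=
    isCompact_Icc.inter_right (isClosed_Iic.preimage hf)
  obtain ⟨a', ha'⟩ := hS2.exists_isGreatest ⟨a, ⟨le_rfl, hb'1.1⟩, ha⟩
  have ha'1 : a' ∈ Icc a b' := ha'.1.1
  have ha'2 : f a' ≤ l := ha'.1.2
  have hal : f a' = l := by
    refine le_antisymm ha'2 ?_
    by_contra hcon
    push Not at hcon
    have hiv := intermediate_value_Icc ha'1.2 hf.continuousOn
    obtain ⟨t, ht, htr⟩ := hiv ⟨hcon.le, by rw [hbr]; exact hlr.le⟩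
    have h1 : t ≤ a' := ha'.2 ⟨⟨ha'1.1.trans ht.1, ht.2⟩, by simp only [mem_preimage, mem_Iic]; linarith⟩
    have h2 : t = a' := le_antisymm h1 ht.1
    rw [h2] at htr; linarith
  refine ⟨a', b', ha'1.1, ha'1.2, hb'1.2, ?_, hal, hbr⟩
  intro t ht
  constructor
  · by_contra hcon
    push Not at hcon
    have h1 : t ≤ a' := ha'.2 ⟨⟨ha'1.1.trans ht.1, ht.2⟩, hcon.le⟩
    have h2 : t = a' := le_antisymm h1 ht.1
    rw [h2] at hcon; linarith
  · by_contra hcon
    push Not at hcon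
    have h1 : b' ≤ t := hb'.2 ⟨⟨ha'1.1.trans ht.1, ht.2.trans hb'1.2⟩, hcon.le⟩
    have h2 : t = b' := le_antisymm ht.2 h1
    rw [h2] at hcon; linarith

theorem cross {f : ℝ → ℝ} (hf : Continuous f) {a b l r : ℝ} (hab : a ≤ b) (hlr : l < r)
    (h : Spans f a b l r) :
    ∃ a' b', a ≤ a' ∧ a' ≤ b' ∧ b' ≤ b ∧ (∀ t ∈ Icc a' b', f t ∈ Icc l r) ∧
      Ends f a' b' l r := by
  rcases h with ⟨h1, h2⟩ | ⟨h1, h2⟩
  · obtain ⟨a', b', x1, x2, x3, x4, x5, x6⟩ := cross_up hf hab hlr h1 h2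
    exact ⟨a', b', x1, x2, x3, x4, Or.inl ⟨x5, x6⟩⟩
  · obtain ⟨a', b', x1, x2, x3, x4, x5, x6⟩ :=
      cross_up (f := fun t => - f t) hf.neg hab (neg_lt_neg hlr) (by linarith) (by linarith)
    refine ⟨a', b', x1, x2, x3, ?_, Or.inr ⟨by linarith, by linarith⟩⟩
    intro t ht
    have := x4 t ht
    simp only [mem_Icc] at this ⊢
    constructor <;> linarith [this.1, this.2]

/-- Nested intervals: if every interval that is good at stage `j` contains a good interval at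
stage `j+1`, there is a point that lies in a good interval of every stage. -/
theorem nested (P : ℕ → ℝ → ℝ → Prop) (a0 b0 : ℝ) (h0 : P 0 a0 b0)
    (hle : ∀ j a b, P j a b → a ≤ b)
    (hs : ∀ j a b, P j a b → ∃ a' b', a ≤ a' ∧ b' ≤ b ∧ P (j + 1) a' b') :
    ∃ t : ℝ, ∀ j, ∃ a b, P j a b ∧ t ∈ Icc a b := by
  choose! fa fb h1 h2 h3 using hs
  let J : ℕ → ℝ × ℝ := fun j => Nat.rec (a0, b0) (fun j p => (fa j p.1 p.2, fb j p.1 p.2)) j
  have hJs : ∀ j, J (j + 1) = (fa j (J j).1 (J j).2, fb j (J j).1 (J j).2) := fun j => rfl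
  have hP : ∀ j, P j (J j).1 (J j).2 := by
    intro j
    induction j with
    | zero => exact h0
    | succ j ih => rw [hJs]; exact h3 j _ _ ih
  have hm1 : Monotone (fun j => (J j).1) := by
    refine monotone_nat_of_le_succ ?_
    intro j
    rw [hJs]; exact h1 j _ _ (hP j)
  have hm2 : Antitone (fun j => (J j).2) := by
    refine antitone_nat_of_succ_le ?_
    intro j
    rw [hJs]; exact h2 j _ _ (hP j)
  have hIcc : Antitone (fun j => Icc (J j).1 (J j).2) := by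
    intro i j hij
    exact Icc_subset_Icc (hm1 hij) (hm2 hij)
  have := ciSup_mem_iInter_Icc_of_antitone_Icc hIcc (fun j => hle j _ _ (hP j))
  rw [mem_iInter] at this
  exact ⟨_, fun j => ⟨_, _, hP j, this j⟩⟩

end Pool.Agent.Q264.HS
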