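import Pool.Agent.Q264.HS.Main

/-! A concrete itinerary with longer and longer runs of the first symbol, and the real map. -/

namespace Pool.Agent.Q264.HS

open Set

/-- The symbol `true` exactly at the positive squares. -/
def itin (j : ℕ) : Bool := decide (1 ≤ j ∧ IsSquare j)

theorem itin_step (j : ℕ) (h : itin j = true) : itin (j + 1) = false := by
  simp only [itin, decide_eq_true_eq, decide_eq_false_iff_not] at h ⊢
  rintro ⟨-, b, hb⟩
  obtain ⟨h1, a, ha⟩ := h
  have h2 : a < b := by nlinarith
  have h3 : 1 ≤ a := by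
    rcases Nat.eq_zero_or_pos a with h | h
    · subst h; omega
    · exact h
  nlinarith

theorem sq_big (k N : ℕ) : N + k + 1 ≤ (k + N + 1) ^ 2 := by
  have h : (k + N + 1) ^ 2 = (k + N) * (k + N) + 2 * (k + N) + 1 := by ring
  rw [h]
  have := Nat.zero_le ((k + N) * (k + N))
  omega

theorem itin_run (k N : ℕ) : ∃ j, N ≤ j ∧ (∀ i < k, itin (j + i) = false) ∧
    itin (j + k) = true := by
  refine ⟨(k + N + 1) ^ 2 - k, ?_, ?_, ?_⟩
  · have := sq_big k N
    omega
  · intro i hi
    simp only [itin, decide_eq_false_iff_not]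
    rintro ⟨-, a, ha⟩
    have h1 : k ≤ (k + N + 1) ^ 2 := by have := sq_big k N; omega
    have h2 : (k + N + 1) ^ 2 - k + i + k = (k + N + 1) ^ 2 + i := by omega
    have h3 : a * a + k = (k + N + 1) ^ 2 + i := by rw [← ha]; exact h2
    have h4 : a < k + N + 1 := by nlinarith
    nlinarith
  · have h1 : k ≤ (k + N + 1) ^ 2 := by have := sq_big k N; omega
    have h2 : (k + N + 1) ^ 2 - k + k = (k + N + 1) ^ 2 := by omega
    rw [h2]
    simp only [itin, decide_eq_true_eq]
    exact ⟨by have := sq_big k N; omega, ⟨k + N + 1, by ring⟩⟩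

theorem tm_ge (σ : ℕ → Bool) (j : ℕ) : j ≤ tm σ j := by
  induction j with
  | zero => exact Nat.zero_le _
  | succ j ih =>
    have : 1 ≤ len (σ j) := by cases σ j <;> simp [len]
    simp only [tm]; omega

theorem tm_run {σ : ℕ → Bool} {j k : ℕ} (h : ∀ i < k, σ (j + i) = false) :
    tm σ (j + k) = tm σ j + 27 * k := by
  induction k with
  | zero => rfl
  | succ k ih =>
    have h1 := ih (fun i hi => h i (by omega))
    have h2 := h k (by omega)
    rw [← Nat.add_assoc]
    simp only [tm]
    rw [h1, h2]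
    simp only [len, Bool.false_eq_true, if_false]
    ring

/-- The map of the recurrence in logarithmic coordinates. -/
noncomputable def Gm (B y : ℝ) : ℝ := Real.log (1 + B ^ y) / Real.log B

theorem Gm_cont {B : ℝ} (hB : 1 < B) : Continuous (Gm B) := by
  have h0 : (0 : ℝ) < B := by linarith
  unfold Gm
  refine Continuous.div_const (Continuous.log ?_ ?_) _
  · exact continuous_const.add (Real.continuous_const_rpow h0.ne')
  · intro y
    have := Real.rpow_pos_of_pos h0 y
    positivity

theorem Gm_low {B : ℝ} (hB : 1 < B) (y : ℝ) : max 0 y ≤ Gm B y := by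
  have h0 : (0 : ℝ) < B := by linarith
  have hL : 0 < Real.log B := Real.log_pos hB
  have hy := Real.rpow_pos_of_pos h0 y
  unfold Gm
  refine max_le ?_ ?_
  · exact div_nonneg (Real.log_nonneg (by linarith)) hL.le
  · rw [le_div_iff₀ hL, ← Real.log_rpow h0]
    exact Real.log_le_log hy (by linarith)

theorem Gm_upp {B : ℝ} (hB : 1 < B) (y : ℝ) : Gm B y ≤ max 0 y + Real.log 2 / Real.log B := by
  have h0 : (0 : ℝ) < B := by linarith
  have hL : 0 < Real.log B := Real.log_pos hB
  have hy := Real.rpow_pos_of_pos h0 y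
  unfold Gm
  rw [div_le_iff₀ hL, add_mul, div_mul_cancel₀ _ hL.ne', ← Real.log_rpow h0,
    ← Real.log_mul (Real.rpow_pos_of_pos h0 _).ne' (by norm_num)]
  refine Real.log_le_log (by linarith) ?_
  have h1 : 1 ≤ B ^ max 0 y := Real.one_le_rpow hB.le (le_max_left _ _)
  have h2 : B ^ y ≤ B ^ max 0 y := Real.rpow_le_rpow_of_exponent_le hB.le (le_max_right _ _)
  linarith

end Pool.Agent.Q264.HS
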