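import Mathlib

/-! Affine bookkeeping for recurrences close to `v (n+3) = max 0 (1 + v n - v (n+2))`. -/

namespace Pool.Agent.Q264.HS

/-- `a + b s` with error at most `e η`. -/
structure Aff where
  a : ℤ
  b : ℤ
  e : ℕ
  deriving DecidableEq

/-- `v` is within `e η` of `a + b s`. -/
def Aff.app (A : Aff) (s η v : ℝ) : Prop := |v - ((A.a : ℝ) + A.b * s)| ≤ A.e * η

/-- One step for parameters `s ∈ [lo/D, hi/D]` and `η ≤ 1/K`. -/
def stepA (lo hi D K : ℤ) (p q : Aff) : Option Aff :=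
  let ya := 1 + p.a - q.a
  let yb := p.b - q.b
  let yl := ya * D + yb * lo
  let yh := ya * D + yb * hi
  if 0 ≤ yl ∧ 0 ≤ yh then some ⟨ya, yb, p.e + q.e + 1⟩
  else if K * yl + ((p.e + q.e : ℕ) : ℤ) * D ≤ 0 ∧ K * yh + ((p.e + q.e : ℕ) : ℤ) * D ≤ 0 then
    some ⟨0, 0, 1⟩
  else none

/-- A sequence that obeys the max-plus recurrence up to a one-sided error `η`. -/
def Near (η : ℝ) (v : ℕ → ℝ) : Prop :=
  ∀ n, max 0 (1 + v n - v (n + 2)) ≤ v (n + 3) ∧
    v (n + 3) ≤ max 0 (1 + v n - v (n + 2)) + η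

theorem stepA_sound {lo hi D K : ℤ} {p q r : Aff} (h : stepA lo hi D K p q = some r)
    (hD : 0 < D) (hK : 0 < K) {s η x y z : ℝ} (hs1 : (lo : ℝ) / D ≤ s) (hs2 : s ≤ (hi : ℝ) / D)
    (hη0 : 0 ≤ η) (hη : η ≤ 1 / K) (hp : p.app s η x) (hq : q.app s η y)
    (hz1 : max 0 (1 + x - y) ≤ z) (hz2 : z ≤ max 0 (1 + x - y) + η) : r.app s η z := by
  have hDr : (0 : ℝ) < D := by exact_mod_cast hD
  have hKr : (0 : ℝ) < K := by exact_mod_cast hK
  unfold Aff.app at hp hq ⊢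
  rw [abs_le] at hp hq
  have hlin : ∀ u : ℝ, ((lo : ℝ) / D ≤ u) → u ≤ (hi : ℝ) / D → ∀ (c d m : ℝ),
      c * D + d * lo ≤ m → c * D + d * hi ≤ m → (c + d * u) * D ≤ m := by
    intro u hu1 hu2 c d m h1 h2
    have e1 : (lo : ℝ) ≤ u * D := by rwa [div_le_iff₀ hDr] at hu1
    have e2 : u * D ≤ hi := by rwa [le_div_iff₀ hDr] at hu2
    rcases le_total 0 d with hd | hd
    · nlinarith
    · nlinarith
  unfold stepA at h
  dsimp only at h
  split_ifs at h with h1 h2
  · simp only [Option.some.injEq] at h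
    subst h
    obtain ⟨g1, g2⟩ := h1
    have g1' : (0 : ℝ) ≤ (1 + p.a - q.a) * D + (p.b - q.b) * lo := by exact_mod_cast g1
    have g2' : (0 : ℝ) ≤ (1 + p.a - q.a) * D + (p.b - q.b) * hi := by exact_mod_cast g2
    have hpos : 0 ≤ (1 + p.a - q.a : ℝ) + (p.b - q.b) * s := by
      have := hlin s hs1 hs2 (-(1 + p.a - q.a : ℝ)) (-(p.b - q.b)) 0 (by linarith) (by linarith)
      by_contra hc
      push Not at hc
      nlinarith
    push_cast
    set Y : ℝ := (1 + p.a - q.a : ℝ) + (p.b - q.b) * s with hY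
    have hYy : 1 + x - y ≤ Y + (p.e + q.e) * η := by rw [hY]; linarith [hp.1, hp.2, hq.1, hq.2]
    have hYy2 : Y - (p.e + q.e) * η ≤ 1 + x - y := by rw [hY]; linarith [hp.1, hp.2, hq.1, hq.2]
    have hnn : 0 ≤ ((p.e : ℝ) + q.e) * η := by positivity
    have m1 : max 0 (1 + x - y) ≤ Y + (p.e + q.e) * η := max_le (by linarith) hYy
    have m2 : Y - (p.e + q.e) * η ≤ max 0 (1 + x - y) := hYy2.trans (le_max_right _ _)
    rw [abs_le]
    constructor <;> linarith
  · simp only [Option.some.injEq] at h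
    subst h
    obtain ⟨g1, g2⟩ := h2
    have g1' : (K : ℝ) * ((1 + p.a - q.a) * D + (p.b - q.b) * lo) + (p.e + q.e) * D ≤ 0 := by
      exact_mod_cast g1
    have g2' : (K : ℝ) * ((1 + p.a - q.a) * D + (p.b - q.b) * hi) + (p.e + q.e) * D ≤ 0 := by
      exact_mod_cast g2
    have hneg : (K : ℝ) * ((1 + p.a - q.a : ℝ) + (p.b - q.b) * s) + (p.e + q.e) ≤ 0 := by
      have := hlin s hs1 hs2 ((K : ℝ) * (1 + p.a - q.a : ℝ) + (p.e + q.e)) (K * (p.b - q.b)) 0
        (by nlinarith) (by nlinarith)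
      by_contra hc
      push Not at hc
      nlinarith
    have hke : ((p.e : ℝ) + q.e) * η ≤ ((p.e : ℝ) + q.e) / K := by
      rw [div_eq_mul_one_div]
      exact mul_le_mul_of_nonneg_left hη (by positivity)
    have hneg2 : ((1 + p.a - q.a : ℝ) + (p.b - q.b) * s) + ((p.e : ℝ) + q.e) / K ≤ 0 := by
      by_contra hc
      push Not at hc
      have := mul_pos hKr hc
      have e3 : (K : ℝ) * (((p.e : ℝ) + q.e) / K) = p.e + q.e := by field_simp
      nlinarith
    have hle : 1 + x - y ≤ 0 := by linarith [hp.1, hp.2, hq.1, hq.2]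
    rw [max_eq_left hle] at hz1 hz2
    push_cast
    rw [abs_le]
    constructor <;> linarith

/-- Run the checker `k` steps. -/
def runA (lo hi D K : ℤ) : ℕ → Aff × Aff × Aff → Option (Aff × Aff × Aff)
  | 0, s => some s
  | k + 1, s =>
    match stepA lo hi D K s.1 s.2.2 with
    | none => none
    | some r => runA lo hi D K k (s.2.1, s.2.2, r)

theorem runA_sound {lo hi D K : ℤ} (hD : 0 < D) (hK : 0 < K) {s η : ℝ} (hs1 : (lo : ℝ) / D ≤ s)
    (hs2 : s ≤ (hi : ℝ) / D) (hη0 : 0 ≤ η) (hη : η ≤ 1 / K) {v : ℕ → ℝ} (hv : Near η v) :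
    ∀ (k m : ℕ) (S R : Aff × Aff × Aff), runA lo hi D K k S = some R →
      S.1.app s η (v m) → S.2.1.app s η (v (m + 1)) → S.2.2.app s η (v (m + 2)) →
      R.1.app s η (v (m + k)) ∧ R.2.1.app s η (v (m + k + 1)) ∧ R.2.2.app s η (v (m + k + 2)) := by
  intro k
  induction k with
  | zero =>
    intro m S R h h1 h2 h3
    simp only [runA, Option.some.injEq] at h
    subst h
    exact ⟨h1, h2, h3⟩
  | succ k ih =>
    intro m S R h h1 h2 h3
    rw [runA] at h
    split at h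
    · exact absurd h (by simp)
    · rename_i r hr
      have h4 : r.app s η (v (m + 1 + 2)) :=
        stepA_sound hr hD hK hs1 hs2 hη0 hη h1 h3 (hv m).1 (hv m).2
      have := ih (m + 1) _ _ h h2 h3 h4
      have e1 : m + 1 + k = m + (k + 1) := by ring
      rw [e1] at this
      exact this

/-- The start of a block. -/
def st0 : Aff × Aff × Aff := (⟨0, 0, 1⟩, ⟨0, 1, 0⟩, ⟨0, 0, 1⟩)

theorem runA27 : runA 3220 3270 1000 1000000 27 st0 = some (⟨0, 0, 1⟩, ⟨13, -3, 84⟩, ⟨0, 0, 1⟩) := by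
  decide +kernel

theorem runA46 :
    runA 3288 3293 1000 1000000 46 st0 = some (⟨0, 0, 1⟩, ⟨102, -30, 1163⟩, ⟨0, 0, 1⟩) := by
  decide +kernel

end Pool.Agent.Q264.HS
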