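import Pool.Agent.Q264.HS.Cross
import Pool.Agent.Q264.HS.Trop

/-! Orbits with prescribed itinerary for `v (n+3) = G (1 + v n - v (n+2))`, `G` close to
`max 0`. -/

namespace Pool.Agent.Q264.HS

open Set

/-- State after `n` steps of the orbit with initial state `(0,t,0)`. -/
noncomputable def stt (G : ℝ → ℝ) (t : ℝ) : ℕ → ℝ × ℝ × ℝ
  | 0 => (0, t, 0)
  | n + 1 => ((stt G t n).2.1, (stt G t n).2.2, G (1 + (stt G t n).1 - (stt G t n).2.2))

/-- The orbit. -/
noncomputable def V (G : ℝ → ℝ) (n : ℕ) (t : ℝ) : ℝ := (stt G t n).1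

theorem V_one (G : ℝ → ℝ) (n : ℕ) (t : ℝ) : V G (n + 1) t = (stt G t n).2.1 := rfl

theorem V_two (G : ℝ → ℝ) (n : ℕ) (t : ℝ) : V G (n + 2) t = (stt G t n).2.2 := rfl

theorem V_rec (G : ℝ → ℝ) (n : ℕ) (t : ℝ) :
    V G (n + 3) t = G (1 + V G n t - V G (n + 2) t) := rfl

theorem stt_cont {G : ℝ → ℝ} (hG : Continuous G) (n : ℕ) : Continuous (fun t => stt G t n) := by
  induction n with
  | zero => simp only [stt]; fun_prop
  | succ n ih =>
    simp only [stt]
    have h1 : Continuous (fun t => (stt G t n).1) := continuous_fst.comp ih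
    have h2 : Continuous (fun t => (stt G t n).2.1) := continuous_fst.comp (continuous_snd.comp ih)
    have h3 : Continuous (fun t => (stt G t n).2.2) := continuous_snd.comp (continuous_snd.comp ih)
    exact h2.prodMk (h3.prodMk (hG.comp ((continuous_const.add h1).sub h3)))

theorem V_cont {G : ℝ → ℝ} (hG : Continuous G) (n : ℕ) : Continuous (V G n) :=
  continuous_fst.comp (stt_cont hG n)

/-- left endpoint of the interval of a symbol -/
noncomputable def lft (c : Bool) : ℝ := if c then 3.288 else 3.22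
/-- right endpoint of the interval of a symbol -/
noncomputable def rgt (c : Bool) : ℝ := if c then 3.293 else 3.27
/-- length of the block of a symbol -/
def len (c : Bool) : ℕ := if c then 46 else 27

/-- Starting times of the blocks of an itinerary. -/
def tm (σ : ℕ → Bool) : ℕ → ℕ
  | 0 => 0
  | j + 1 => tm σ j + len (σ j)

/-- Good parameter intervals at stage `j`. -/
def Good (G : ℝ → ℝ) (η : ℝ) (σ : ℕ → Bool) (j : ℕ) (a b : ℝ) : Prop :=
  a ≤ b ∧ (∀ t ∈ Icc a b, |V G (tm σ j) t| ≤ η ∧ |V G (tm σ j + 2) t| ≤ η ∧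
    V G (tm σ j + 1) t ∈ Icc (lft (σ j)) (rgt (σ j))) ∧
  Ends (V G (tm σ j + 1)) a b (lft (σ j)) (rgt (σ j))

theorem block {G : ℝ → ℝ} {η : ℝ} (hη0 : 0 ≤ η) (hη : η ≤ 1 / 1000000)
    (h1 : ∀ y, max 0 y ≤ G y) (h2 : ∀ y, G y ≤ max 0 y + η) {m : ℕ} {t : ℝ} (c : Bool)
    (e0 : |V G m t| ≤ η) (e2 : |V G (m + 2) t| ≤ η)
    (e1 : V G (m + 1) t ∈ Icc (lft c) (rgt c)) :
    |V G (m + len c) t| ≤ η ∧ |V G (m + len c + 2) t| ≤ η ∧
      |V G (m + len c + 1) t -
        (if c then 102 - 30 * V G (m + 1) t else 13 - 3 * V G (m + 1) t)| ≤ 1163 * η := by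
  have hnear : Near η (fun n => V G n t) := by
    intro n
    have := V_rec G n t
    dsimp only
    rw [this]
    exact ⟨h1 _, h2 _⟩
  cases c with
  | false =>
    simp only [lft, rgt, len, Bool.false_eq_true, if_false] at e1 ⊢
    have := runA_sound (lo := 3220) (hi := 3270) (D := 1000) (K := 1000000) (by norm_num)
      (by norm_num) (s := V G (m + 1) t) (η := η) (by push_cast; norm_num at e1 ⊢; linarith [e1.1])
      (by push_cast; norm_num at e1 ⊢; linarith [e1.2]) hη0 (by push_cast; linarith) hnear 27 m _ _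
      runA27 (by simp [st0, Aff.app, e0]) (by simp [st0, Aff.app]) (by simp [st0, Aff.app, e2])
    obtain ⟨g1, g2, g3⟩ := this
    simp only [Aff.app] at g1 g2 g3
    refine ⟨by simpa using g1, by simpa using g3, ?_⟩
    push_cast at g2
    refine le_trans ?_ (g2.trans ?_)
    · apply le_of_eq; congr 1; ring
    · nlinarith
  | true =>
    simp only [lft, rgt, len, if_true] at e1 ⊢
    have := runA_sound (lo := 3288) (hi := 3293) (D := 1000) (K := 1000000) (by norm_num)
      (by norm_num) (s := V G (m + 1) t) (η := η) (by push_cast; norm_num at e1 ⊢; linarith [e1.1])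
      (by push_cast; norm_num at e1 ⊢; linarith [e1.2]) hη0 (by push_cast; linarith) hnear 46 m _ _
      runA46 (by simp [st0, Aff.app, e0]) (by simp [st0, Aff.app]) (by simp [st0, Aff.app, e2])
    obtain ⟨g1, g2, g3⟩ := this
    simp only [Aff.app] at g1 g2 g3
    refine ⟨by simpa using g1, by simpa using g3, ?_⟩
    push_cast at g2
    refine le_trans ?_ g2
    apply le_of_eq; congr 1; ring

theorem lft_lt_rgt (c : Bool) : lft c < rgt c := by cases c <;> simp [lft, rgt] <;> norm_num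

theorem good_step {G : ℝ → ℝ} (hG : Continuous G) {η : ℝ} (hη0 : 0 ≤ η) (hη : η ≤ 1 / 1000000)
    (h1 : ∀ y, max 0 y ≤ G y) (h2 : ∀ y, G y ≤ max 0 y + η) {σ : ℕ → Bool}
    (hσ : ∀ j, σ j = true → σ (j + 1) = false) (j : ℕ) (a b : ℝ) (hg : Good G η σ j a b) :
    ∃ a' b', a ≤ a' ∧ b' ≤ b ∧ Good G η σ (j + 1) a' b' := by
  obtain ⟨hab, hall, hend⟩ := hg
  have hblk := fun t (ht : t ∈ Icc a b) =>
    block hη0 hη h1 h2 (σ j) (hall t ht).1 (hall t ht).2.1 (hall t ht).2.2
  have hsp : Spans (V G (tm σ (j + 1) + 1)) a b (lft (σ (j + 1))) (rgt (σ (j + 1))) := by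
    have ha := (hblk a ⟨le_rfl, hab⟩).2.2
    have hb := (hblk b ⟨hab, le_rfl⟩).2.2
    rw [abs_le] at ha hb
    show Spans (V G (tm σ j + len (σ j) + 1)) a b _ _
    unfold Spans
    rcases Bool.eq_false_or_eq_true (σ j) with hc | hc
    · have hc' := hσ j hc
      rw [hc] at ha hb hend ⊢
      rw [hc']
      simp only [if_true] at ha hb
      simp only [lft, rgt, if_true, Bool.false_eq_true, if_false] at hend ⊢
      rcases hend with ⟨x1, x2⟩ | ⟨x1, x2⟩
      · right
        rw [x1] at ha; rw [x2] at hb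
        constructor <;> linarith [ha.1, ha.2, hb.1, hb.2]
      · left
        rw [x1] at ha; rw [x2] at hb
        constructor <;> linarith [ha.1, ha.2, hb.1, hb.2]
    · rw [hc] at ha hb hend ⊢
      simp only [Bool.false_eq_true, if_false] at ha hb
      simp only [lft, rgt, Bool.false_eq_true, if_false] at hend ⊢
      rcases hend with ⟨x1, x2⟩ | ⟨x1, x2⟩
      · right
        rw [x1] at ha; rw [x2] at hb
        split_ifs <;> constructor <;> linarith [ha.1, ha.2, hb.1, hb.2]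
      · left
        rw [x1] at ha; rw [x2] at hb
        split_ifs <;> constructor <;> linarith [ha.1, ha.2, hb.1, hb.2]
  obtain ⟨a', b', x1, x2, x3, x4, x5⟩ := cross (V_cont hG _) hab (lft_lt_rgt _) hsp
  refine ⟨a', b', x1, x3, x2, ?_, x5⟩
  intro t ht
  have ht' : t ∈ Icc a b := ⟨x1.trans ht.1, ht.2.trans x3⟩
  exact ⟨(hblk t ht').1, (hblk t ht').2.1, x4 t ht⟩

/-- Orbits with prescribed itinerary. -/
theorem exists_orbit {G : ℝ → ℝ} (hG : Continuous G) {η : ℝ} (hη0 : 0 ≤ η) (hη : η ≤ 1 / 1000000)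
    (h1 : ∀ y, max 0 y ≤ G y) (h2 : ∀ y, G y ≤ max 0 y + η) {σ : ℕ → Bool}
    (hσ : ∀ j, σ j = true → σ (j + 1) = false) :
    ∃ v : ℕ → ℝ, (∀ n, v (n + 3) = G (1 + v n - v (n + 2))) ∧
      ∀ j, v (tm σ j + 1) ∈ Icc (lft (σ j)) (rgt (σ j)) := by
  have h0 : Good G η σ 0 (lft (σ 0)) (rgt (σ 0)) := by
    refine ⟨(lft_lt_rgt _).le, ?_, Or.inl ⟨rfl, rfl⟩⟩
    intro t ht
    refine ⟨?_, ?_, ht⟩
    · show |(0 : ℝ)| ≤ η
      simpa using hη0
    · show |(0 : ℝ)| ≤ η
      simpa using hη0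
  obtain ⟨t, ht⟩ := nested (Good G η σ) _ _ h0 (fun j a b h => h.1)
    (fun j a b h => good_step hG hη0 hη h1 h2 hσ j a b h)
  refine ⟨fun n => V G n t, fun n => V_rec G n t, ?_⟩
  intro j
  obtain ⟨a, b, hg, hm⟩ := ht j
  exact (hg.2.1 t hm).2.2

end Pool.Agent.Q264.HS
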